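import Pool.Agent.X221.Chord.Osc

/-!
# The sl(2)-weight system at c = -3/32 extends to a 4-invariant of graphs

Chord diagrams of order `n` are given as double occurrence words in the letters `Fin n` (the word
read along the circle from a base point).  The 4-invariant is the evaluation at `N = -2` of the
polynomial in `N` which, for natural `N`, is the sum over all maps `S` from the vertices to the
two-element subsets of `{1, ..., N}` of the product over all edges `ab` of
`(-1) ^ |S a ∩ S b|`.
-/

namespace Pool.Agent.Results.MP_4cfd5d_gt.OscillatorExtension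

open Finset Polynomial Pool.Agent.X221.Chord

/-- The Lie algebra `sl(2)` of complex matrices of trace zero. -/
abbrev sl2 : Type := LieAlgebra.SpecialLinear.sl (Fin 2) ℂ

/-- The universal enveloping algebra of `sl(2)`. -/
abbrev U : Type := UniversalEnvelopingAlgebra ℂ sl2

/-- The matrix `E`. -/
def matE : sl2 := ⟨!![0, 1; 0, 0], by
  show Matrix.trace !![(0 : ℂ), 1; 0, 0] = 0
  simp [Matrix.trace_fin_two]⟩

/-- The matrix `F`. -/
def matF : sl2 := ⟨!![0, 0; 1, 0], by
  show Matrix.trace !![(0 : ℂ), 0; 1, 0] = 0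
  simp [Matrix.trace_fin_two]⟩

/-- The matrix `H`. -/
def matH : sl2 := ⟨!![1, 0; 0, -1], by
  show Matrix.trace !![(1 : ℂ), 0; 0, -1] = 0
  simp [Matrix.trace_fin_two]⟩

/-- `E` in the enveloping algebra. -/
noncomputable def uE : U := UniversalEnvelopingAlgebra.ι ℂ matE

/-- `F` in the enveloping algebra. -/
noncomputable def uF : U := UniversalEnvelopingAlgebra.ι ℂ matF

/-- `H` in the enveloping algebra. -/
noncomputable def uH : U := UniversalEnvelopingAlgebra.ι ℂ matH

/-- The basis `E, F, H` of `sl(2)`. -/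
noncomputable def basisU : Fin 3 → U
  | 0 => uE
  | 1 => uF
  | 2 => uH

/-- The dual basis `F/4, E/4, H/8` with respect to the form `4 tr(xy)`, for which the Casimir
element is `(EF + FE + H²/2)/4`. -/
noncomputable def dualU : Fin 3 → U
  | 0 => (1 / 4 : ℂ) • uF
  | 1 => (1 / 4 : ℂ) • uE
  | 2 => (1 / 8 : ℂ) • uH

/-- The Casimir element `C = (EF + FE + H²/2)/4`. -/
noncomputable def casimir : U :=
  (1 / 4 : ℂ) • (uE * uF + uF * uE + (1 / 2 : ℂ) • (uH * uH))

/-- The value of the universal `sl(2)` weight system on the chord diagram `D`: the sum over all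
assignments of basis elements to the chords of the product, along the circle, of the basis element
at the first end of every chord and the dual basis element at its second end. -/
noncomputable def weightU {n : ℕ} (D : List (Fin n)) : U :=
  ∑ l : Fin n → Fin 3,
    ((mark D).map fun p => if p.2 then dualU (l p.1) else basisU (l p.1)).prod

/-! ### The oscillator representation -/

attribute [local instance 100] LieRing.ofAssociativeRing

section osc

variable {R : Type} [Ring R] [Algebra ℂ R] (x d : R)

/-- the image of `E` -/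
noncomputable def rE : R := (-1 / 2 : ℂ) • (d * d)
/-- the image of `F` -/
noncomputable def rF : R := (1 / 2 : ℂ) • (x * x)
/-- the image of `H` -/
noncomputable def rH : R := (-1 : ℂ) • (x * d) + (-1 / 2 : ℂ) • 1

variable {x d} (hd : d * x = x * d + 1)

include hd

omit [Algebra ℂ R] in
lemma hd' (A : R) : A * d * x = A * x * d + A := by
  rw [mul_assoc, hd, mul_add, mul_one, mul_assoc]

lemma rE_rF : rE d * rF x - rF x * rE d = rH x d := by
  unfold rE rF rH
  simp only [smul_mul_assoc, mul_smul_comm, ← mul_assoc, hd' hd, hd, add_mul, one_mul]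
  module

lemma rH_rE : rH x d * rE d - rE d * rH x d = (2 : ℂ) • rE d := by
  unfold rE rH
  simp only [smul_mul_assoc, mul_smul_comm, ← mul_assoc, hd' hd, hd, add_mul, mul_add, one_mul,
    mul_one]
  module

lemma rH_rF : rH x d * rF x - rF x * rH x d = (-2 : ℂ) • rF x := by
  unfold rF rH
  simp only [smul_mul_assoc, mul_smul_comm, ← mul_assoc, hd' hd, add_mul, mul_add, one_mul,
    mul_one]
  module

lemma casimir_osc : (1 / 4 : ℂ) • (rE d * rF x + rF x * rE d + (1 / 2 : ℂ) • (rH x d * rH x d)) =
    (-3 / 32 : ℂ) • (1 : R) := by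
  unfold rE rF rH
  simp only [smul_mul_assoc, mul_smul_comm, ← mul_assoc, hd' hd, hd, add_mul, mul_add, one_mul,
    mul_one]
  module

/-- The oscillator representation. -/
noncomputable def osc : sl2 →ₗ⁅ℂ⁆ R where
  toFun A := (A.1 0 0) • rH x d + (A.1 0 1) • rE d + (A.1 1 0) • rF x
  map_add' A B := by
    have e : ∀ i j, (A + B).1 i j = A.1 i j + B.1 i j := fun _ _ => rfl
    rw [e, e, e]
    module
  map_smul' c A := by
    have e : ∀ i j, (c • A).1 i j = c * A.1 i j := fun _ _ => rfl
    rw [e, e, e, RingHom.id_apply]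
    module
  map_lie' := by
    intro A B
    have hA : A.1 1 1 = -A.1 0 0 := by
      have : Matrix.trace A.1 = 0 := A.2
      rw [Matrix.trace_fin_two] at this
      linear_combination this
    have hB : B.1 1 1 = -B.1 0 0 := by
      have : Matrix.trace B.1 = 0 := B.2
      rw [Matrix.trace_fin_two] at this
      linear_combination this
    have e := LieAlgebra.SpecialLinear.sl_bracket (Fin 2) ℂ A B
    have e1 := rE_rF hd
    have e2 := rH_rE hd
    have e3 := rH_rF hd
    show (⁅A, B⁆.1 0 0) • rH x d + (⁅A, B⁆.1 0 1) • rE d + (⁅A, B⁆.1 1 0) • rF x =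
      ⁅(A.1 0 0) • rH x d + (A.1 0 1) • rE d + (A.1 1 0) • rF x,
        (B.1 0 0) • rH x d + (B.1 0 1) • rE d + (B.1 1 0) • rF x⁆
    rw [e, Ring.lie_def]
    simp only [Matrix.sub_apply, Matrix.mul_apply, Fin.sum_univ_two, hA, hB]
    have f1 : rE d * rF x = rF x * rE d + rH x d := by rw [← e1]; abel
    have f2 : rH x d * rE d = rE d * rH x d + (2 : ℂ) • rE d := by rw [← e2]; abel
    have f3 : rH x d * rF x = rF x * rH x d + (-2 : ℂ) • rF x := by rw [← e3]; abel
    simp only [add_mul, mul_add, smul_mul_assoc, mul_smul_comm, f1, f2, f3]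
    module

end osc

/-- The algebra homomorphism defined by the oscillator representation. -/
noncomputable def oscU {R : Type} [Ring R] [Algebra ℂ R] {x d : R} (hd : d * x = x * d + 1) :
    U →ₐ[ℂ] R := UniversalEnvelopingAlgebra.lift ℂ (osc hd)

section values

variable {R : Type} [Ring R] [Algebra ℂ R] {x d : R} (hd : d * x = x * d + 1)

lemma oscU_E : oscU hd uE = rE d := by
  unfold oscU uE
  rw [UniversalEnvelopingAlgebra.lift_ι_apply]
  show ((matE.1 0 0) • rH x d + (matE.1 0 1) • rE d + (matE.1 1 0) • rF x) = rE d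
  simp [matE]

lemma oscU_F : oscU hd uF = rF x := by
  unfold oscU uF
  rw [UniversalEnvelopingAlgebra.lift_ι_apply]
  show ((matF.1 0 0) • rH x d + (matF.1 0 1) • rE d + (matF.1 1 0) • rF x) = rF x
  simp [matF]

lemma oscU_H : oscU hd uH = rH x d := by
  unfold oscU uH
  rw [UniversalEnvelopingAlgebra.lift_ι_apply]
  show ((matH.1 0 0) • rH x d + (matH.1 0 1) • rE d + (matH.1 1 0) • rF x) = rH x d
  simp [matH]

lemma oscU_casimir : oscU hd casimir = (-3 / 32 : ℂ) • (1 : R) := by
  unfold casimir
  rw [map_smul, map_add, map_add, map_smul, map_mul, map_mul, map_mul, oscU_E, oscU_F, oscU_H,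
    casimir_osc hd]

/-- The class of a pair of labels. -/
def cls : Bool × Bool → Fin 3
  | (true, true) => 0
  | (false, false) => 1
  | _ => 2

/-- Scalars. -/
noncomputable def scal : Bool → Fin 3 → ℂ
  | false, 0 => -1 / 4
  | true, 0 => 1 / 16
  | false, 1 => 1 / 4
  | true, 1 => -1 / 16
  | false, 2 => 1 / 2
  | true, 2 => -1 / 16

/-- Symmetrised product of two tokens. -/
def hh (x d : R) (b : Bool) (m : Bool × Bool) : R :=
  tok x d b m.1 * tok x d b m.2 + tok x d b m.2 * tok x d b m.1

/-- representatives -/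
def rep : Fin 3 → Bool × Bool
  | 0 => (true, true)
  | 1 => (false, false)
  | 2 => (false, true)

omit [Algebra ℂ R] in
lemma hh_rep (b : Bool) (m : Bool × Bool) : hh x d b (rep (cls m)) = hh x d b m := by
  obtain ⟨s, t⟩ := m
  cases s <;> cases t <;> simp [hh, cls, rep, add_comm]

lemma oscU_tok (b : Bool) (l : Fin 3) :
    oscU hd (if b then dualU l else basisU l) = scal b l • hh x d b (rep l) := by
  fin_cases l <;> cases b <;>
  simp only [basisU, dualU, scal, hh, rep, tok, if_true, Bool.false_eq_true, if_false,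
    map_smul, oscU_E, oscU_F, oscU_H, rE, rF, rH, hd, neg_mul, mul_neg, neg_neg] <;> module

end values

lemma prod_smul_list {R : Type} [Ring R] [Algebra ℂ R] {ι : Type} (c : ι → ℂ) (f : ι → R)
    (l : List ι) : (l.map fun p => c p • f p).prod = (l.map c).prod • (l.map f).prod := by
  induction l with
  | nil => simp
  | cons a l ih => simp only [List.map_cons, List.prod_cons, ih, smul_mul_smul_comm]

/-- multiplicities of the classes -/
def mult : Fin 3 → ℕ
  | 0 => 1
  | 1 => 1
  | 2 => 2

lemma card_cls (c : Fin 3) : (univ.filter fun m : Bool × Bool => cls m = c).card = mult c := by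
  fin_cases c <;> decide

lemma scal_mul (c : Fin 3) : scal false c * scal true c = (-1 / 64) * (mult c : ℂ) := by
  fin_cases c <;> norm_num [scal, mult]

/-- Pairs of labels. -/
def pairs (n : ℕ) : (Fin n × Bool → Bool) ≃ (Fin n → Bool × Bool) :=
  (Equiv.curry (Fin n) Bool Bool).trans (Equiv.arrowCongr (Equiv.refl _) (Equiv.boolArrowEquivProd Bool))

lemma pairs_apply {n : ℕ} (i : Fin n × Bool → Bool) (a : Fin n) :
    pairs n i a = (i (a, false), i (a, true)) := rfl

/-- The value of the weight system in the oscillator representation. -/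
theorem oscU_weightU {R : Type} [Ring R] [Algebra ℂ R] {x d : R} (hd : d * x = x * d + 1)
    {n : ℕ} {D : List (Fin n)} (hD : ∀ a, D.count a = 2) :
    oscU hd (weightU D) =
      ((-1 / 16 : ℂ) ^ n * (gpoly (interGraph D)).eval (-1 / 2)) • (1 : R) := by
  let Xl : (Fin n → Fin 3) → R := fun l => ((mark D).map fun p => hh x d p.2 (rep (l p.1))).prod
  have h1 : oscU hd (weightU D) = ∑ l : Fin n → Fin 3,
      ((-1 / 64 : ℂ) ^ n * ∏ a, (mult (l a) : ℂ)) • Xl l := by
    unfold weightU
    rw [map_sum]
    refine sum_congr rfl fun l _ => ?_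
    rw [map_list_prod, List.map_map]
    have h2 : (oscU hd ∘ fun p : Fin n × Bool => if p.2 then dualU (l p.1) else basisU (l p.1)) =
        fun p => scal p.2 (l p.1) • hh x d p.2 (rep (l p.1)) := by
      funext p
      exact oscU_tok hd p.2 (l p.1)
    rw [h2, prod_smul_list]
    congr 1
    rw [mark_prod hD, Fintype.prod_prod_type]
    simp only [Fintype.prod_bool]
    have h3 : ∀ a : Fin n, scal true (l a) * scal false (l a) = (-1 / 64) * (mult (l a) : ℂ) :=
      fun a => by rw [mul_comm, scal_mul]
    simp only [h3]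
    rw [prod_mul_distrib, prod_const, card_univ, Fintype.card_fin]
  have h4 : ∑ i : Fin n × Bool → Bool, ((mark D).map (htok x d i)).prod =
      ∑ l : Fin n → Fin 3, (∏ a, (mult (l a) : ℂ)) • Xl l := by
    have h5 : ∀ i : Fin n × Bool → Bool, ((mark D).map (htok x d i)).prod =
        Xl (fun a => cls (pairs n i a)) := by
      intro i
      simp only [Xl]
      congr 1
      refine List.map_congr_left fun p _ => ?_
      rw [hh_rep]
      rfl
    simp only [h5]
    rw [Equiv.sum_comp (pairs n) (fun μ : Fin n → Bool × Bool => Xl (fun a => cls (μ a)))]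
    rw [← Finset.sum_fiberwise (s := univ) (g := fun μ : Fin n → Bool × Bool => fun a => cls (μ a))
      (f := fun μ : Fin n → Bool × Bool => Xl (fun a => cls (μ a)))]
    refine sum_congr rfl fun l _ => ?_
    rw [sum_congr rfl (g := fun _ => Xl l) (fun μ hμ => by rw [(mem_filter.mp hμ).2]),
      sum_const]
    have h6 : (univ.filter fun μ : Fin n → Bool × Bool => (fun a => cls (μ a)) = l) =
        Fintype.piFinset fun a => univ.filter fun m : Bool × Bool => cls m = l a := by
      ext μ
      simp [funext_iff]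
    rw [h6, Fintype.card_piFinset]
    simp only [card_cls]
    rw [← Nat.cast_smul_eq_nsmul ℂ]
    push_cast
    rfl
  have h7 := weyl_sum hD hd
  rw [h4] at h7
  rw [h1]
  have h8 : ∑ l : Fin n → Fin 3, ((-1 / 64 : ℂ) ^ n * ∏ a, (mult (l a) : ℂ)) • Xl l =
      (-1 / 64 : ℂ) ^ n • ∑ l : Fin n → Fin 3, (∏ a, (mult (l a) : ℂ)) • Xl l := by
    rw [smul_sum]
    exact sum_congr rfl fun l _ => by rw [smul_smul]
  rw [h8, h7, smul_smul, ← mul_assoc, ← mul_pow]
  norm_num

/-- **The `sl(2)` weight system at `c = -3/32` extends to a 4-invariant of graphs.** -/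
theorem result : ∃ ξ : (n : ℕ) → SimpleGraph (Fin n) → ℂ,
    (∀ (n : ℕ) (G G' : SimpleGraph (Fin n)), Nonempty (G ≃g G') → ξ n G = ξ n G') ∧
    (∀ (n : ℕ) (G : SimpleGraph (Fin n)) (a b : Fin n), a ≠ b →
      ξ n G - ξ n (toggle G a b) = ξ n (slide G a b) - ξ n (toggle (slide G a b) a b)) ∧
    ∀ (n : ℕ) (D : List (Fin n)), (∀ a, D.count a = 2) →
      ∀ p : ℂ[X], aeval casimir p = weightU D → ξ n (interGraph D) = p.eval (-3 / 32) := by
  refine ⟨fun n G => (-1 / 16 : ℂ) ^ n * (gpoly G).eval (-1 / 2), ?_, ?_, ?_⟩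
  · rintro n G G' ⟨e⟩
    show _ * (gpoly G).eval _ = _ * (gpoly G').eval _
    rw [gpoly_iso e]
  · intro n G a b hab
    have h := congrArg (fun r : ℂ[X] => (-1 / 16 : ℂ) ^ n * r.eval (-1 / 2))
      (gpoly_four_term G hab)
    simp only [eval_sub] at h
    show _ * _ - _ * _ = _ * _ - _ * _
    linear_combination h
  · intro n D hD p hp
    have h1 := oscU_weightU dop_mul_xop hD
    rw [← hp, ← aeval_algHom_apply, oscU_casimir, ← Algebra.algebraMap_eq_smul_one,
      aeval_algebraMap_apply, Algebra.algebraMap_eq_smul_one] at h1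
    have h2 := congrArg (fun T : W => (T 1).eval 0) h1
    simp only [LinearMap.smul_apply, Module.End.one_apply, eval_smul, eval_one, smul_eq_mul,
      mul_one] at h2
    rw [← coe_aeval_eq_eval]
    exact h2.symm

end Pool.Agent.Results.MP_4cfd5d_gt.OscillatorExtension
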